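import Pool.Agent.H252.MD.Iface

/-!
# Project MD (helper252): (PP) positive parts of Hermitian matrices
-/

set_option autoImplicit false

namespace Pool.Agent.H378.MDPP

open Matrix
open scoped ComplexOrder MatrixOrder

set_option linter.unusedSectionVars false

variable {N : Type} [Fintype N] [DecidableEq N]

/-- the trace of the product of two positive semidefinite matrices -/
theorem trace_mul_nonneg {S T : Matrix N N ℂ} (hS : S.PosSemidef) (hT : T.PosSemidef) :
    0 ≤ (S * T).trace.re := by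
  obtain ⟨B, rfl⟩ := CStarAlgebra.nonneg_iff_eq_star_mul_self.mp hT.nonneg
  have h1 : (S * (star B * B)).trace = (B * S * Bᴴ).trace := by
    rw [star_eq_conjTranspose, ← Matrix.mul_assoc, Matrix.trace_mul_comm, Matrix.mul_assoc]
  rw [h1]
  exact (Complex.le_def.1 (hS.mul_mul_conjTranspose_same B).trace_nonneg).1

theorem sum_sq (A : Matrix N N ℂ) : ∑ k, ∑ l, ‖A k l‖ ^ 2 = (Aᴴ * A).trace.re := by
  rw [trace, Complex.re_sum]
  simp only [diag_apply, Matrix.mul_apply, Complex.re_sum, conjTranspose_apply]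
  rw [Finset.sum_comm]
  refine Finset.sum_congr rfl fun i _ => Finset.sum_congr rfl fun j _ => ?_
  rw [Complex.star_def, Complex.conj_mul', ← Complex.ofReal_pow, Complex.ofReal_re]

theorem rank_le_of (A B : Matrix N N ℂ) (h : ∀ w, B *ᵥ (A *ᵥ w) = 0 → A *ᵥ w = 0) :
    A.rank ≤ B.rank := by
  have h1 : LinearMap.ker (B * A).mulVecLin = LinearMap.ker A.mulVecLin := by
    ext w
    rw [LinearMap.mem_ker, LinearMap.mem_ker, mulVecLin_apply, mulVecLin_apply, ← mulVec_mulVec]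
    exact ⟨h w, fun h0 => by rw [h0, mulVec_zero]⟩
  have h2 := LinearMap.finrank_range_add_finrank_ker (B * A).mulVecLin
  have h3 := LinearMap.finrank_range_add_finrank_ker A.mulVecLin
  rw [h1] at h2
  have h4 : (B * A).rank = A.rank := by
    unfold rank
    omega
  rw [← h4]
  exact rank_mul_le_left B A

theorem pp_symm {X Y : Matrix N N ℂ} (h : Pool.Agent.H252.MD.IsPP Y X) : (Y - X) * Y = 0 := by
  have h1 := congrArg conjTranspose h.mul
  rwa [conjTranspose_mul, conjTranspose_zero, h.pos.1.eq, h.neg.1.eq] at h1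

theorem part_a (X Y X' Y' : Matrix N N ℂ) (h : Pool.Agent.H252.MD.IsPP Y X)
    (h' : Pool.Agent.H252.MD.IsPP Y' X') :
    ∑ k, ∑ l, ‖Y k l - Y' k l‖ ^ 2 ≤ ∑ k, ∑ l, ‖X k l - X' k l‖ ^ 2 := by
  set S := Y - X with hS
  set S' := Y' - X' with hS'
  have hX : X = Y - S := by rw [hS]; abel
  have hX' : X' = Y' - S' := by rw [hS']; abel
  have e1 : Y * S = 0 := h.mul
  have e2 : S * Y = 0 := pp_symm h
  have e3 : Y' * S' = 0 := h'.mul
  have e4 : S' * Y' = 0 := pp_symm h'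
  have p1 := trace_mul_nonneg h.pos h'.neg
  have p2 := trace_mul_nonneg h'.pos h.neg
  rw [← hS'] at p1
  rw [← hS] at p2
  have q1 : Sᴴ = S := h.neg.1.eq
  have q2 : S'ᴴ = S' := h'.neg.1.eq
  clear_value S S'
  set T := S - S' with hT
  have hTh : Tᴴ = T := by
    rw [hT, conjTranspose_sub, q1, q2]
  have p3 : 0 ≤ (T * T).trace.re := by
    have := (posSemidef_conjTranspose_mul_self T).trace_nonneg
    rw [hTh] at this
    exact (Complex.le_def.1 this).1
  have s1 := sum_sq (Y - Y')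
  have s2 := sum_sq (X - X')
  simp only [Matrix.sub_apply] at s1 s2
  rw [s1, s2]
  have hD : (Y - Y')ᴴ = Y - Y' := by
    rw [conjTranspose_sub, h.pos.1.eq, h'.pos.1.eq]
  have hE : X - X' = (Y - Y') - T := by
    rw [hX, hX', hT]
    abel
  have hEh : (X - X')ᴴ = X - X' := by
    rw [hE, conjTranspose_sub, hD, hTh]
  rw [hD, hEh, hE]
  have e5 : ((Y - Y' - T) * (Y - Y' - T)) = (Y - Y') * (Y - Y') - ((Y - Y') * T + T * (Y - Y'))
      + T * T := by
    noncomm_ring
  have e6 : ((Y - Y') * T).trace = (T * (Y - Y')).trace := trace_mul_comm _ _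
  have e7 : (Y - Y') * T = -(Y * S') - Y' * S := by
    rw [hT, Matrix.sub_mul, Matrix.mul_sub, Matrix.mul_sub, e1, e3]
    abel
  rw [e5, trace_add, trace_sub, trace_add, ← e6, e7, trace_sub, trace_neg]
  simp only [Complex.add_re, Complex.sub_re, Complex.neg_re]
  linarith

theorem quad_nonneg {M : Matrix N N ℂ} (hM : M.PosSemidef) (x : N → ℂ) :
    0 ≤ (star x ⬝ᵥ M *ᵥ x).re ∧ (star x ⬝ᵥ M *ᵥ x).im = 0 := by
  have h := Complex.le_def.1 (hM.dotProduct_mulVec_nonneg x)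
  exact ⟨h.1, h.2.symm⟩

theorem part_b (X Y p : Matrix N N ℂ) (C : ℝ) (h : Pool.Agent.H252.MD.IsPP Y X)
    (hC : ((C : ℂ) • p - X).PosSemidef) : Y.rank ≤ p.rank := by
  refine rank_le_of Y p fun w hw => ?_
  set v := Y *ᵥ w with hv
  have h1 := quad_nonneg hC v
  have h2 := quad_nonneg h.pos v
  have hX : X *ᵥ v = Y *ᵥ v := by
    have h3 : (Y - X) *ᵥ v = 0 := by
      rw [hv, mulVec_mulVec, pp_symm h, zero_mulVec]
    rw [sub_mulVec, sub_eq_zero] at h3
    exact h3.symm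
  rw [sub_mulVec, smul_mulVec, hw, smul_zero, zero_sub, hX, dotProduct_neg, Complex.neg_re] at h1
  have h4 : star v ⬝ᵥ Y *ᵥ v = 0 := Complex.ext (by
    rw [Complex.zero_re]
    linarith [h1.1, h2.1]) (by rw [h2.2, Complex.zero_im])
  have h5 : Y *ᵥ v = 0 := (h.pos.dotProduct_mulVec_zero_iff v).1 h4
  have h6 : star w ⬝ᵥ Y *ᵥ (Y *ᵥ w) = 0 := by rw [← hv, h5, dotProduct_zero]
  have h7 : star v ⬝ᵥ v = 0 := by
    rw [← h6, hv, star_mulVec, h.pos.1.eq, dotProduct_mulVec (star w) Y (Y *ᵥ w)]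
  exact dotProduct_star_self_eq_zero.1 h7

/-- a function of the positive part -/
noncomputable def fc {Y : Matrix N N ℂ} (hY : Y.IsHermitian) (f : ℝ → ℝ) : Matrix N N ℂ :=
  (hY.eigenvectorUnitary : Matrix N N ℂ) * diagonal (fun i => ((f (hY.eigenvalues i) : ℝ) : ℂ)) *
    star (hY.eigenvectorUnitary : Matrix N N ℂ)

section fc

variable {Y : Matrix N N ℂ} (hY : Y.IsHermitian)

theorem uu : star (hY.eigenvectorUnitary : Matrix N N ℂ) *
    (hY.eigenvectorUnitary : Matrix N N ℂ) = 1 := Unitary.coe_star_mul_self _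

theorem uu' : (hY.eigenvectorUnitary : Matrix N N ℂ) *
    star (hY.eigenvectorUnitary : Matrix N N ℂ) = 1 := Unitary.coe_mul_star_self _

theorem fc_id : fc hY (fun t => t) = Y := by
  conv_rhs => rw [hY.spectral_theorem]
  rw [Unitary.conjStarAlgAut_apply]
  rfl

theorem fc_mul (f g : ℝ → ℝ) : fc hY f * fc hY g = fc hY (fun t => f t * g t) := by
  unfold fc
  have h1 : ∀ (U D E V : Matrix N N ℂ), V * U = 1 → U * D * V * (U * E * V) = U * (D * E) * V := by
    intro U D E V h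
    calc U * D * V * (U * E * V) = U * D * (V * U) * E * V := by simp only [Matrix.mul_assoc]
      _ = U * (D * E) * V := by rw [h, Matrix.mul_one, Matrix.mul_assoc U D E]
  rw [h1 _ _ _ _ (uu hY), diagonal_mul_diagonal]
  congr 3
  funext i
  push_cast
  rfl

theorem fc_star (f : ℝ → ℝ) : (fc hY f)ᴴ = fc hY f := by
  unfold fc
  rw [conjTranspose_mul, conjTranspose_mul, ← star_eq_conjTranspose, star_star, Matrix.mul_assoc,
    diagonal_conjTranspose]
  have : star (fun i => ((f (hY.eigenvalues i) : ℝ) : ℂ)) =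
      fun i => ((f (hY.eigenvalues i) : ℝ) : ℂ) := by
    funext i
    rw [Pi.star_apply, Complex.star_def, Complex.conj_ofReal]
  rw [this]
  rfl

/-- the quadratic form -/
theorem fc_quad (f : ℝ → ℝ) (v : N → ℂ) : (star v ⬝ᵥ fc hY f *ᵥ v).re =
    ∑ i, f (hY.eigenvalues i) *
      ‖(star (hY.eigenvectorUnitary : Matrix N N ℂ) *ᵥ v) i‖ ^ 2 := by
  set c := star (hY.eigenvectorUnitary : Matrix N N ℂ) *ᵥ v with hc
  have h1 : star v ⬝ᵥ fc hY f *ᵥ v =
      star c ⬝ᵥ diagonal (fun i => ((f (hY.eigenvalues i) : ℝ) : ℂ)) *ᵥ c := by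
    unfold fc
    rw [← mulVec_mulVec, ← mulVec_mulVec, ← hc, dotProduct_mulVec, hc, star_mulVec,
      ← star_eq_conjTranspose, star_star]
  rw [h1, dotProduct, Complex.re_sum]
  refine Finset.sum_congr rfl fun i _ => ?_
  rw [mulVec_diagonal, Pi.star_apply, Complex.star_def]
  have : (starRingEnd ℂ) (c i) * (((f (hY.eigenvalues i) : ℝ) : ℂ) * c i) =
      ((f (hY.eigenvalues i) * ‖c i‖ ^ 2 : ℝ) : ℂ) := by
    push_cast
    rw [← Complex.conj_mul']
    ring
  rw [this, Complex.ofReal_re]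

/-- the entries -/
theorem fc_entry (f : ℝ → ℝ) {C : ℝ} (hf : ∀ i, |f (hY.eigenvalues i)| ≤ C) (k l : N) :
    ‖fc hY f k l‖ ≤ C := by
  set U := (hY.eigenvectorUnitary : Matrix N N ℂ) with hU
  have h1 : fc hY f k l = ∑ i, U k i * ((f (hY.eigenvalues i) : ℝ) : ℂ) * star (U l i) := by
    unfold fc
    rw [Matrix.mul_apply]
    refine Finset.sum_congr rfl fun i _ => ?_
    rw [mul_diagonal, star_apply]
  have h2 : ∀ k, ∑ i, ‖U k i‖ ^ 2 = 1 := by
    intro k
    have h3 : (U * star U) k k = 1 := by rw [hU, uu' hY, one_apply_eq]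
    rw [Matrix.mul_apply] at h3
    have h4 : ∀ i, U k i * star U i k = ((‖U k i‖ ^ 2 : ℝ) : ℂ) := by
      intro i
      rw [star_apply, Complex.star_def, Complex.mul_conj']
      push_cast
      rfl
    simp only [h4] at h3
    rw [← Complex.ofReal_sum] at h3
    exact_mod_cast h3
  rw [h1]
  refine (norm_sum_le _ _).trans ?_
  have hC : ∀ i, ‖U k i * ((f (hY.eigenvalues i) : ℝ) : ℂ) * star (U l i)‖ ≤
      C * ((‖U k i‖ ^ 2 + ‖U l i‖ ^ 2) / 2) := by
    intro i
    rw [norm_mul, norm_mul, norm_star, Complex.norm_real, Real.norm_eq_abs]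
    have hC0 : 0 ≤ C := (abs_nonneg _).trans (hf i)
    calc ‖U k i‖ * |f (hY.eigenvalues i)| * ‖U l i‖ =
        |f (hY.eigenvalues i)| * (‖U k i‖ * ‖U l i‖) := by ring
      _ ≤ C * (‖U k i‖ * ‖U l i‖) := mul_le_mul_of_nonneg_right (hf i) (by positivity)
      _ ≤ C * ((‖U k i‖ ^ 2 + ‖U l i‖ ^ 2) / 2) :=
        mul_le_mul_of_nonneg_left (by nlinarith [sq_nonneg (‖U k i‖ - ‖U l i‖)]) hC0
  refine (Finset.sum_le_sum fun i _ => hC i).trans (le_of_eq ?_)
  rw [← Finset.mul_sum, ← Finset.sum_div, Finset.sum_add_distrib, h2, h2]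
  ring

end fc

theorem re_smul (a : ℝ) (z : ℂ) : ((a : ℂ) * z).re = a * z.re := Complex.re_ofReal_mul a z

theorem quad1 (X q : Matrix N N ℂ) (κ δ : ℝ) (v : N → ℂ) (hqv : q *ᵥ v = v) :
    (star v ⬝ᵥ (X + (κ : ℂ) • (1 : Matrix N N ℂ) - (δ : ℂ) • q) *ᵥ v).re =
      (star v ⬝ᵥ X *ᵥ v).re + κ * (star v ⬝ᵥ v).re - δ * (star v ⬝ᵥ v).re := by
  have h : (X + (κ : ℂ) • (1 : Matrix N N ℂ) - (δ : ℂ) • q) *ᵥ v =
      X *ᵥ v + (κ : ℂ) • v - (δ : ℂ) • v := by
    rw [sub_mulVec, add_mulVec, smul_mulVec, smul_mulVec, one_mulVec, hqv]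
  rw [h, dotProduct_sub, dotProduct_add, dotProduct_smul, dotProduct_smul]
  rw [Complex.sub_re, Complex.add_re]
  exact congrArg₂ _ (congrArg₂ _ rfl (re_smul κ _)) (re_smul δ _)

theorem quad2 (X Y : Matrix N N ℂ) (κ : ℝ) (v : N → ℂ) :
    (star v ⬝ᵥ (Y - (X - (κ : ℂ) • (1 : Matrix N N ℂ))) *ᵥ v).re =
      (star v ⬝ᵥ Y *ᵥ v).re - ((star v ⬝ᵥ X *ᵥ v).re - κ * (star v ⬝ᵥ v).re) := by
  have h : (Y - (X - (κ : ℂ) • (1 : Matrix N N ℂ))) *ᵥ v =
      Y *ᵥ v - (X *ᵥ v - (κ : ℂ) • v) := by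
    rw [sub_mulVec, sub_mulVec, smul_mulVec, one_mulVec]
  rw [h, dotProduct_sub, dotProduct_sub, dotProduct_smul]
  rw [Complex.sub_re, Complex.sub_re]
  exact congrArg₂ _ rfl (congrArg₂ _ rfl (re_smul κ _))

theorem part_c (X Y q : Matrix N N ℂ) (δ κ : ℝ) (hκ : 0 < κ) (hδ : 4 * κ ≤ δ)
    (hq : IsStarProjection q)
    (h1 : (X + (κ : ℂ) • (1 : Matrix N N ℂ) - (δ : ℂ) • q).PosSemidef)
    (h : Pool.Agent.H252.MD.IsPP Y (X - (κ : ℂ) • (1 : Matrix N N ℂ))) :
    ∃ Q : Matrix N N ℂ, (∀ k l, ‖Q k l‖ ≤ 2 / δ) ∧ IsStarProjection (Q * Y) ∧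
      q.rank ≤ (Q * Y).rank := by
  have hδ0 : 0 < δ := by linarith
  have hY : Y.IsHermitian := h.pos.1
  set f : ℝ → ℝ := fun t => if δ / 2 ≤ t then t⁻¹ else 0 with hf
  set χ : ℝ → ℝ := fun t => if δ / 2 ≤ t then 1 else 0 with hχ
  have hfχ : fc hY f * Y = fc hY χ := by
    calc fc hY f * Y = fc hY f * fc hY (fun t => t) := by rw [fc_id]
      _ = fc hY χ := by
        rw [fc_mul]
        congr 1
        funext t
        simp only [hf, hχ]
        split_ifs with ht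
        · exact inv_mul_cancel₀ (by linarith)
        · exact zero_mul _
  have hone : fc hY (fun _ => 1) = 1 := by
    have h2 : (diagonal (fun _ : N => ((1 : ℝ) : ℂ)) : Matrix N N ℂ) = 1 := by
      rw [Complex.ofReal_one]
      exact diagonal_one
    show (hY.eigenvectorUnitary : Matrix N N ℂ) * diagonal (fun _ : N => ((1 : ℝ) : ℂ)) *
      star (hY.eigenvectorUnitary : Matrix N N ℂ) = 1
    rw [h2, Matrix.mul_one, uu' hY]
  refine ⟨fc hY f, fun k l => fc_entry hY f (fun i => ?_) k l, ?_, ?_⟩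
  · simp only [hf]
    split_ifs with ht
    · have h2 : 0 < hY.eigenvalues i := by linarith
      rw [abs_of_pos (inv_pos.2 h2), inv_le_comm₀ h2 (by positivity), inv_div]
      exact ht
    · rw [abs_zero]
      positivity
  · rw [hfχ]
    refine ⟨?_, ?_⟩
    · show fc hY χ * fc hY χ = fc hY χ
      rw [fc_mul]
      congr 1
      funext t
      simp only [hχ]
      split_ifs <;> simp
    · exact fc_star hY χ
  · rw [hfχ]
    refine rank_le_of q _ fun w hw => ?_
    set v := q *ᵥ w with hv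
    have hqv : q *ᵥ v = v := by
      rw [hv, mulVec_mulVec, hq.isIdempotentElem.eq]
    clear_value v
    by_contra hne
    set c := star (hY.eigenvectorUnitary : Matrix N N ℂ) *ᵥ v with hc
    have hvc : (hY.eigenvectorUnitary : Matrix N N ℂ) *ᵥ c = v := by
      rw [hc, mulVec_mulVec, uu' hY, one_mulVec]
    have hcne : c ≠ 0 := fun h0 => hne (by rw [← hvc, h0, mulVec_zero])
    obtain ⟨i₀, hi₀⟩ := Function.ne_iff.1 hcne
    have a1 := fc_quad hY χ v
    have a2 := fc_quad hY (fun t => t) v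
    have a3 := fc_quad hY (fun _ => 1) v
    rw [fc_id] at a2
    rw [hone, one_mulVec] at a3
    rw [hw, dotProduct_zero, Complex.zero_re] at a1
    rw [← hc] at a1 a2 a3
    clear_value c
    have a4 : ∀ i, χ (hY.eigenvalues i) * ‖c i‖ ^ 2 = 0 := by
      have h2 := (Finset.sum_eq_zero_iff_of_nonneg (fun i _ => ?_)).1 a1.symm
      · exact fun i => h2 i (Finset.mem_univ i)
      · simp only [hχ]
        split_ifs <;> positivity
    have a5 : ∀ i, c i ≠ 0 → hY.eigenvalues i < δ / 2 := by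
      intro i hi
      by_contra h2
      have h3 := a4 i
      simp only [hχ] at h3
      rw [if_pos (not_lt.1 h2), one_mul] at h3
      exact hi (norm_eq_zero.1 (pow_eq_zero_iff (two_ne_zero) |>.1 h3))
    have a6 : ∑ i, hY.eigenvalues i * ‖c i‖ ^ 2 < ∑ i, δ / 2 * ‖c i‖ ^ 2 := by
      refine Finset.sum_lt_sum (fun i _ => ?_) ⟨i₀, Finset.mem_univ _, ?_⟩
      · by_cases h2 : c i = 0
        · rw [h2, norm_zero]
          simp
        · exact mul_le_mul_of_nonneg_right (a5 i h2).le (by positivity)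
      · have h2 : 0 < ‖c i₀‖ := norm_pos_iff.2 hi₀
        exact mul_lt_mul_of_pos_right (a5 i₀ hi₀) (by positivity)
    rw [← Finset.mul_sum] at a6
    simp only [one_mul] at a3
    rw [← a2, ← a3] at a6
    have b1 := (quad_nonneg h1 v).1
    have b2 := (quad_nonneg h.neg v).1
    rw [quad1 X q κ δ v hqv] at b1
    rw [quad2 X Y κ v] at b2
    have b3 : 0 ≤ (star v ⬝ᵥ v).re :=
      (Finset.sum_nonneg fun i _ => by positivity).trans_eq a3.symm
    have b4 : 4 * κ * (star v ⬝ᵥ v).re ≤ δ * (star v ⬝ᵥ v).re :=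
      mul_le_mul_of_nonneg_right hδ b3
    linarith

theorem s_PP : Pool.Agent.H252.MD.S_PP := by
  intro N _ _
  exact ⟨part_a, fun X Y p C h _ hC => part_b X Y p C h hC,
    fun X Y q δ κ hκ hδ _ hq h1 h => part_c X Y q δ κ hκ hδ hq h1 h⟩

end Pool.Agent.H378.MDPP
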